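import Pool.Agent.Lib.MP_8a4e59_co.Defs

set_option autoImplicit false

/-!
Interface statements of parts B and P.
-/

namespace Pool.Agent.APP

open Finset ArithmeticFunction

/-- type II piece -/
noncomputable def typeII (M : ℕ) (a b : ℕ → ℂ) (n : ℤ) : ℂ :=
  ∑ m ∈ Finset.Ico M (2 * M), if (m : ℤ) ∣ n then a m * b (n / m).toNat else 0

/-- type I piece with modulus `m` and tame modulus `q₀`. -/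
def TypeI (δ : ℝ) (N q₀ m : ℕ) (w : ℤ → ℂ) : Prop :=
  (∀ x, ‖w x‖ ≤ 1) ∧ (∀ x : ℤ, w x ≠ 0 → δ * N ≤ x ∧ x ≤ N ∧ (m : ℤ) ∣ x) ∧
  (∀ x y : ℤ, δ * N ≤ x → x ≤ N → δ * N ≤ y → y ≤ N → (m : ℤ) ∣ x →
    ((m * q₀ : ℕ) : ℤ) ∣ x - y → ‖w x - w y‖ ≤ |(x : ℝ) - y| / (δ * N))

/-- `g` is a sum of type I and type II pieces, up to a small error. -/
def Dec (δ : ℝ) (N q₀ : ℕ) (X V epsr : ℝ) (g : ℤ → ℂ) : Prop :=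
  ∃ (n₁ n₂ : ℕ) (m : Fin n₁ → ℕ) (lam : Fin n₁ → ℝ) (w : Fin n₁ → ℤ → ℂ) (M : Fin n₂ → ℕ)
    (mu : Fin n₂ → ℝ) (a b : Fin n₂ → ℕ → ℂ) (err : ℤ → ℂ),
    (∀ i, 1 ≤ m i ∧ (m i : ℝ) ≤ X ∧ 0 ≤ lam i ∧ TypeI δ N q₀ (m i) (w i)) ∧
    (∑ i, lam i / m i ≤ 1 / δ) ∧ (∀ j, 0 ≤ mu j) ∧ (∑ j, mu j ≤ 1 / δ) ∧
    (∀ j, V ≤ M j ∧ (M j) ^ 2 ≤ 4 * N ∧ (∀ k, ‖a j k‖ ≤ 1 / δ) ∧ (∀ k, ‖b j k‖ ≤ 1 / δ)) ∧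
    (∑ n ∈ Finset.Icc (1 : ℤ) N, ‖err n‖ ≤ epsr * N) ∧
    (∀ n ∈ Finset.Icc (1 : ℤ) N, g n = ∑ i, (lam i : ℂ) * w i n +
      (if δ * N ≤ (n : ℝ) then ∑ j, (mu j : ℂ) * typeII (M j) (a j) (b j) n else 0) + err n)

/-- small mass on the non coprime classes -/
def ZZ (δ' Y : ℝ) (N : ℕ) (g : ℤ → ℂ) : Prop :=
  ∀ (q q₂ H : ℕ) (a u : ℤ), 1 ≤ q → (q : ℝ) ≤ Y → 1 ≤ q₂ → (q₂ : ℝ) ≤ Y → (N : ℝ) / Y ≤ H →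
    Int.gcd a q = 1 →
    ∑ x ∈ (Finset.Ioc u (u + H)).filter (fun x => (q : ℤ) ∣ x - a ∧ 1 < Int.gcd x q₂), ‖g x‖ ≤
      δ' * (H / q)

/-- Theorem B -/
def S_thmB : Prop := ∃ K : ℕ, ∀ (δ : ℝ) (N q₀ : ℕ) (X₁ V₁ X₂ V₂ Y : ℝ) (g f₀ f₁ f₂ : ℤ → ℂ),
    0 < δ → δ ≤ 1 / 2 → 1 ≤ q₀ → 1 ≤ X₁ → 1 ≤ X₂ → Real.log N ≤ 1 / δ →
    (∀ n, ‖g n‖ ≤ 1) → (∀ n, g n ≠ 0 → 1 ≤ n ∧ n ≤ N) →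
    Dec δ N q₀ X₁ V₁ (δ ^ K) g → Dec δ N q₀ X₂ V₂ ((δ / (q₀ * X₁)) ^ K) g → ZZ (δ ^ K) Y N g →
    (1 / δ) ^ K ≤ V₁ → (q₀ * X₁ / δ) ^ K ≤ V₂ → (q₀ * X₁ * X₂ * V₂ / δ) ^ K ≤ Y → Y ^ K ≤ N →
    (∀ n, ‖f₀ n‖ ≤ 1) → (∀ n, ‖f₁ n‖ ≤ 1) → (∀ n, ‖f₂ n‖ ≤ 1) →
    (∀ n, f₀ n ≠ 0 → 1 ≤ n ∧ n ≤ N) → (∀ n, f₁ n ≠ 0 → 1 ≤ n ∧ n ≤ N) →
    (∀ n, f₂ n ≠ 0 → 1 ≤ n ∧ n ≤ N) →
    δ * (N : ℝ) ^ 2 ≤ ‖∑ y ∈ Finset.Icc (1 : ℤ) N, ∑ n ∈ Finset.Icc (1 : ℤ) N,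
      f₀ (y - n) * f₁ y * f₂ (y + n) * g n‖ →
    ∃ (q H : ℕ) (a u : ℤ), 1 ≤ q ∧ (q : ℝ) ≤ Y ∧ (N : ℝ) / Y ≤ H ∧ 0 ≤ u ∧ u + H ≤ N ∧
      Int.gcd a q = 1 ∧
      δ ^ K * (H / q) ≤ ‖∑ x ∈ (Finset.Ioc u (u + H)).filter (fun x => (q : ℤ) ∣ x - a), g x‖

/-- `exp((log log N)^c)` -/
noncomputable def XX (c N : ℕ) : ℝ := Real.exp (Real.log (Real.log N) ^ c)

/-- `n` has no prime factor `≤ Q` -/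
def rough (Q : ℝ) (n : ℤ) : Prop := ∀ p : ℕ, p.Prime → (p : ℝ) ≤ Q → ¬ (p : ℤ) ∣ n

/-- `∏_{p ≤ Q} (1 - 1/p)⁻¹` -/
noncomputable def CQ (Q : ℝ) : ℝ :=
  ∏ p ∈ (Finset.Icc 1 ⌊Q⌋₊).filter Nat.Prime, (1 - 1 / (p : ℝ))⁻¹

/-- no exceptional character at level `X` -/
def NoExc (X : ℝ) (N : ℕ) : Prop := ∀ q b y : ℕ, 1 ≤ q → (q : ℝ) ≤ X → b.Coprime q → y ≤ N →
  |∑ n ∈ (Finset.Icc 1 y).filter (fun n => n ≡ b [MOD q]), vonMangoldt n - y / q.totient| ≤ N / X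

/-- an exceptional function `om(n) = χ₁(n) n^(β-1)` with modulus `q₁` at level `X` -/
structure Exc (X : ℝ) (N q₁ : ℕ) (β : ℝ) (χ : ℕ → ℝ) : Prop where
  two_le : 2 ≤ q₁
  le_X : (q₁ : ℝ) ≤ X
  half_lt : 1 / 2 < β
  lt_one : β < 1
  gap : 1 / (q₁ : ℝ) ≤ 1 - β
  vals : ∀ n, χ n = 0 ∨ χ n = 1 ∨ χ n = -1
  supp : ∀ n, χ n ≠ 0 ↔ n.Coprime q₁
  mul : ∀ m n, χ (m * n) = χ m * χ n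
  per : ∀ m n, m ≡ n [MOD q₁] → χ m = χ n
  main : ∀ q b y : ℕ, 1 ≤ q → (q : ℝ) ≤ X → b.Coprime q → y ≤ N → q₁ ∣ q →
    |∑ n ∈ (Finset.Icc 1 y).filter (fun n => n ≡ b [MOD q]), vonMangoldt n -
      (∑ n ∈ Finset.Icc 1 y, (1 - χ b * (n : ℝ) ^ (β - 1))) / q.totient| ≤ N / X
  other : ∀ q b y : ℕ, 1 ≤ q → (q : ℝ) ≤ X → b.Coprime q → y ≤ N → ¬ q₁ ∣ q →
    |∑ n ∈ (Finset.Icc 1 y).filter (fun n => n ≡ b [MOD q]), vonMangoldt n - y / q.totient| ≤ N / X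

/-- (P1) primes in progressions to moduli `exp((log log N)^c)` -/
def S_P1 : Prop := ∀ c : ℕ, ∃ N₀ : ℕ, ∀ N : ℕ, N₀ ≤ N →
  NoExc (XX c N) N ∨ ∃ (q₁ : ℕ) (β : ℝ) (χ : ℕ → ℝ), Exc (XX c N) N q₁ β χ

open Classical in
/-- the function `g` to which Theorem B is applied -/
noncomputable def gg (δ Q : ℝ) (N : ℕ) (om : ℕ → ℝ) (n : ℤ) : ℝ :=
  if 1 ≤ n ∧ δ * N ≤ n ∧ n ≤ N then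
    (vonMangoldt n.toNat - CQ Q * (if rough Q n then 1 else 0) * (1 - om n.toNat)) /
      (Real.log N) ^ 2
  else 0

/-- the conclusion of part P for given parameters: `s` = level of `δ`, `t` = bound for all moduli -/
def PP (K s t N q₀ : ℕ) (om : ℕ → ℝ) : Prop :=
  ∃ X₁ V₁ X₂ V₂ Y : ℝ, 1 ≤ X₁ ∧ 1 ≤ X₂ ∧
    (∀ n, ‖(gg (XX s N)⁻¹ (XX (s + 1) N) N om n : ℂ)‖ ≤ 1) ∧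
    Dec (XX s N)⁻¹ N q₀ X₁ V₁ ((XX s N)⁻¹ ^ K) (fun n => (gg (XX s N)⁻¹ (XX (s + 1) N) N om n : ℂ)) ∧
    Dec (XX s N)⁻¹ N q₀ X₂ V₂ (((XX s N)⁻¹ / (q₀ * X₁)) ^ K)
      (fun n => (gg (XX s N)⁻¹ (XX (s + 1) N) N om n : ℂ)) ∧
    ZZ ((XX s N)⁻¹ ^ K) Y N (fun n => (gg (XX s N)⁻¹ (XX (s + 1) N) N om n : ℂ)) ∧
    (XX s N) ^ K ≤ V₁ ∧ (q₀ * X₁ * XX s N) ^ K ≤ V₂ ∧ (q₀ * X₁ * X₂ * V₂ * XX s N) ^ K ≤ Y ∧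
    Y ^ K ≤ N ∧ Y ≤ XX t N ∧
    (∀ (q H : ℕ) (a u : ℤ), 1 ≤ q → (q : ℝ) ≤ Y → (N : ℝ) / Y ≤ H → 0 ≤ u → u + H ≤ N →
      Int.gcd a q = 1 →
      |∑ x ∈ (Finset.Ioc u (u + H)).filter (fun x => (q : ℤ) ∣ x - a),
        gg (XX s N)⁻¹ (XX (s + 1) N) N om x| < (XX s N)⁻¹ ^ K * (H / q))

/-- (P) no exceptional character below level `t` -/
def S_Pa : Prop := ∀ K s : ℕ, 1 ≤ s → ∃ t N₀ : ℕ, s + 1 ≤ t ∧ ∀ N : ℕ, N₀ ≤ N →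
  (∀ q b y : ℕ, 1 ≤ q → (q : ℝ) ≤ XX t N → b.Coprime q → y ≤ N →
    |∑ n ∈ (Finset.Icc 1 y).filter (fun n => n ≡ b [MOD q]), vonMangoldt n - y / q.totient| ≤
      N / XX t N) → PP K s t N 1 (fun _ => 0)

/-- (P) with an exceptional character of conductor `≤ exp((log log N)^t₁)` -/
def S_Pb : Prop := ∀ K t₁ s : ℕ, t₁ + 1 ≤ s → ∃ t N₀ : ℕ, s + 1 ≤ t ∧ ∀ N : ℕ, N₀ ≤ N →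
  ∀ (q₁ : ℕ) (β : ℝ) (χ : ℕ → ℝ), (q₁ : ℝ) ≤ XX t₁ N → Exc (XX t N) N q₁ β χ →
    PP K s t N q₁ (fun n => χ n * (n : ℝ) ^ (β - 1))

end Pool.Agent.APP
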