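import Pool.Agent.Lib.MP_8a4e59_co.Defs

set_option autoImplicit false

/-!
Basic facts about `nn` and `ee`.
-/

namespace Pool.Agent.APP

open Finset

lemma nn_nonneg (x : ℝ) : 0 ≤ nn x := abs_nonneg _

lemma nn_le_half (x : ℝ) : nn x ≤ 1 / 2 := abs_sub_round x

lemma nn_le_abs_sub (x : ℝ) (k : ℤ) : nn x ≤ |x - k| := round_le x k

lemma nn_le_abs (x : ℝ) : nn x ≤ |x| := by simpa using nn_le_abs_sub x 0

lemma nn_add_int (x : ℝ) (k : ℤ) : nn (x + k) = nn x := by
  unfold nn
  rw [round_add_intCast]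
  congr 1
  push_cast
  ring

lemma nn_int (k : ℤ) : nn (k : ℝ) = 0 := by
  unfold nn; simp

lemma nn_zero : nn 0 = 0 := by simpa using nn_int 0

lemma nn_neg (x : ℝ) : nn (-x) = nn x := by
  apply le_antisymm
  · have h := nn_le_abs_sub (-x) (-(round x))
    refine h.trans_eq ?_
    unfold nn
    push_cast
    rw [← abs_neg]
    congr 1
    ring
  · have h := nn_le_abs_sub x (-(round (-x)))
    refine h.trans_eq ?_
    unfold nn
    push_cast
    rw [← abs_neg]
    congr 1
    ring

lemma nn_add_le (x y : ℝ) : nn (x + y) ≤ nn x + nn y := by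
  have h := nn_le_abs_sub (x + y) (round x + round y)
  refine h.trans ?_
  unfold nn
  push_cast
  calc |x + y - (round x + round y)| = |(x - round x) + (y - round y)| := by congr 1; ring
    _ ≤ _ := abs_add_le _ _

lemma nn_sub_le (x y : ℝ) : nn (x - y) ≤ nn x + nn y := by
  rw [sub_eq_add_neg]
  refine (nn_add_le x (-y)).trans_eq ?_
  rw [nn_neg]

lemma nn_int_mul_le (k : ℤ) (x : ℝ) : nn (k * x) ≤ |(k : ℝ)| * nn x := by
  have h := nn_le_abs_sub (k * x) (k * round x)
  refine h.trans_eq ?_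
  unfold nn
  push_cast
  rw [← abs_mul]
  congr 1
  ring

lemma nn_eq_of_sub_int {x y : ℝ} (k : ℤ) (h : x - y = k) : nn x = nn y := by
  have : x = y + k := by linarith
  rw [this, nn_add_int]

lemma nn_eq_zero_iff (x : ℝ) : nn x = 0 ↔ ∃ k : ℤ, x = k := by
  constructor
  · intro h
    exact ⟨round x, by unfold nn at h; rw [abs_eq_zero] at h; linarith⟩
  · rintro ⟨k, rfl⟩
    exact nn_int k

lemma ee_zero : ee 0 = 1 := by simp [ee]

lemma norm_ee (x : ℝ) : ‖ee x‖ = 1 := by
  unfold ee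
  rw [Complex.norm_exp_ofReal_mul_I]

lemma ee_add (x y : ℝ) : ee (x + y) = ee x * ee y := by
  unfold ee
  rw [← Complex.exp_add]
  congr 1
  push_cast
  ring

lemma ee_neg (x : ℝ) : ee (-x) = (starRingEnd ℂ) (ee x) := by
  unfold ee
  rw [← Complex.exp_conj]
  congr 1
  rw [map_mul, Complex.conj_ofReal, Complex.conj_I]
  push_cast
  ring

lemma ee_sub (x y : ℝ) : ee (x - y) = ee x * (starRingEnd ℂ) (ee y) := by
  rw [sub_eq_add_neg, ee_add, ee_neg]

lemma ee_int (k : ℤ) : ee (k : ℝ) = 1 := by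
  unfold ee
  rw [Complex.exp_eq_one_iff]
  exact ⟨k, by push_cast; ring⟩

lemma ee_nat (k : ℕ) : ee (k : ℝ) = 1 := by exact_mod_cast ee_int k

lemma ee_add_int (x : ℝ) (k : ℤ) : ee (x + k) = ee x := by rw [ee_add, ee_int, mul_one]

lemma ee_ne_zero (x : ℝ) : ee x ≠ 0 := by
  intro h
  have := norm_ee x
  rw [h, norm_zero] at this
  norm_num at this

lemma ee_nat_mul (k : ℕ) (x : ℝ) : ee (k * x) = ee x ^ k := by
  induction k with
  | zero => simp [ee_zero]
  | succ k ih => rw [pow_succ, ← ih, ← ee_add]; congr 1; push_cast; ring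

lemma ee_conj_mul_self (x : ℝ) : (starRingEnd ℂ) (ee x) * ee x = 1 := by
  rw [← ee_neg, ← ee_add, neg_add_cancel, ee_zero]

lemma norm_ee_sub_one (x : ℝ) : ‖ee x - 1‖ = 2 * |Real.sin (Real.pi * x)| := by
  have h1 : ee x - 1 = ee (x / 2) * (2 * Real.sin (Real.pi * x) * Complex.I) := by
    have e : ee x = ee (x / 2) * ee (x / 2) := by rw [← ee_add]; congr 1; ring
    have h2 : (2 * Real.sin (Real.pi * x) * Complex.I : ℂ) = ee (x / 2) - ee (-(x / 2)) := by
      unfold ee
      rw [Complex.ofReal_sin, Complex.sin]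
      have hI : Complex.I * Complex.I = -1 := Complex.I_mul_I
      have e1 : ((2 * Real.pi * (x / 2) : ℝ) : ℂ) * Complex.I = ((Real.pi * x : ℝ) : ℂ) * Complex.I := by
        push_cast; ring
      have e2 : ((2 * Real.pi * (-(x / 2)) : ℝ) : ℂ) * Complex.I =
          -((Real.pi * x : ℝ) : ℂ) * Complex.I := by
        push_cast; ring
      rw [e1, e2]
      linear_combination (Complex.exp (-((Real.pi * x : ℝ) : ℂ) * Complex.I) -
        Complex.exp (((Real.pi * x : ℝ) : ℂ) * Complex.I)) * hI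
    rw [h2, mul_sub, ← ee_add, ← ee_add]
    congr 1
    · congr 1; ring
    · rw [add_neg_cancel, ee_zero]
  rw [h1, norm_mul, norm_ee, one_mul, norm_mul, Complex.norm_I, mul_one, norm_mul]
  rw [Complex.norm_real, Real.norm_eq_abs]
  simp

lemma norm_ee_sub_one_nn (x : ℝ) : ‖ee x - 1‖ = 2 * Real.sin (Real.pi * nn x) := by
  have h0 : ee x = ee (x - round x) := by
    have := ee_add_int (x - round x) (round x)
    rw [← this]; congr 1; ring
  rw [h0, norm_ee_sub_one]
  congr 1
  unfold nn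
  have hpi := Real.pi_pos
  rcases le_total 0 (x - round x) with h | h
  · rw [abs_of_nonneg h]
    apply abs_of_nonneg
    apply Real.sin_nonneg_of_nonneg_of_le_pi (by positivity)
    have := abs_sub_round x
    rw [abs_of_nonneg h] at this
    nlinarith
  · rw [abs_of_nonpos h]
    have h2 : Real.pi * -(x - round x) = -(Real.pi * (x - round x)) := by ring
    rw [h2, Real.sin_neg]
    rw [← abs_neg]
    apply abs_of_nonneg
    rw [← Real.sin_neg, ← h2]
    apply Real.sin_nonneg_of_nonneg_of_le_pi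
    · have : 0 ≤ -(x - round x) := by linarith
      positivity
    · have := abs_sub_round x
      rw [abs_of_nonpos h] at this
      nlinarith

lemma norm_ee_sub_one_le (x : ℝ) : ‖ee x - 1‖ ≤ 2 * Real.pi * nn x := by
  rw [norm_ee_sub_one_nn]
  have hpi := Real.pi_pos
  have := Real.sin_le (show 0 ≤ Real.pi * nn x by have := nn_nonneg x; positivity)
  linarith

lemma four_nn_le (x : ℝ) : 4 * nn x ≤ ‖ee x - 1‖ := by
  rw [norm_ee_sub_one_nn]
  have hpi := Real.pi_pos
  have h1 := Real.mul_le_sin (show 0 ≤ Real.pi * nn x by have := nn_nonneg x; positivity)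
    (by have := nn_le_half x; nlinarith)
  have h2 : 2 / Real.pi * (Real.pi * nn x) = 2 * nn x := by field_simp
  linarith

lemma norm_ee_sub_ee (x y : ℝ) : ‖ee x - ee y‖ = ‖ee (x - y) - 1‖ := by
  have : ee x - ee y = ee y * (ee (x - y) - 1) := by
    rw [mul_sub, mul_one, ← ee_add]; congr 2; ring
  rw [this, norm_mul, norm_ee, one_mul]

lemma norm_ee_sub_ee_le (x y : ℝ) : ‖ee x - ee y‖ ≤ 2 * Real.pi * nn (x - y) := by
  rw [norm_ee_sub_ee]; exact norm_ee_sub_one_le _

/-- geometric sums -/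
lemma norm_geom_mul_le (J : ℕ) (x : ℝ) :
    ‖∑ j ∈ range J, ee (j * x)‖ * (2 * nn x) ≤ 1 := by
  rcases eq_or_ne (nn x) 0 with h | h
  · rw [h]; simp
  have h1 : ee x ≠ 1 := by
    intro he
    have := four_nn_le x
    rw [he, sub_self, norm_zero] at this
    have := nn_nonneg x
    exact h (by linarith)
  have h2 : ∑ j ∈ range J, ee (j * x) = (ee x ^ J - 1) / (ee x - 1) := by
    rw [← geom_sum_eq h1]
    exact Finset.sum_congr rfl (fun j _ => ee_nat_mul j x)
  have h3 : 0 < ‖ee x - 1‖ := norm_pos_iff.2 (sub_ne_zero.2 h1)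
  rw [h2, norm_div]
  have h4 : ‖ee x ^ J - 1‖ ≤ 2 := by
    refine (norm_sub_le _ _).trans ?_
    rw [norm_pow, norm_ee]; norm_num
  have h5 := four_nn_le x
  have h6 := nn_nonneg x
  rw [div_mul_eq_mul_div, div_le_one h3]
  nlinarith

lemma norm_geom_le_card (J : ℕ) (x : ℝ) : ‖∑ j ∈ range J, ee (j * x)‖ ≤ J := by
  refine (norm_sum_le _ _).trans ?_
  simp [norm_ee]

/-- geometric sum over an arbitrary interval of integers -/
lemma norm_geom_Ico_mul_le (a b : ℤ) (x : ℝ) :
    ‖∑ j ∈ Finset.Ico a b, ee (j * x)‖ * (2 * nn x) ≤ 1 := by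
  rcases le_total b a with h | h
  · rw [Finset.Ico_eq_empty (by omega)]; simp
  have h1 : ∑ j ∈ Finset.Ico a b, ee (j * x) =
      ee (a * x) * ∑ j ∈ range (b - a).toNat, ee (j * x) := by
    rw [Finset.mul_sum]
    symm
    apply Finset.sum_bij (fun (j : ℕ) _ => a + (j : ℤ))
    · intro j hj
      rw [Finset.mem_range] at hj
      rw [Finset.mem_Ico]
      omega
    · intro j _ k _ hjk
      omega
    · intro k hk
      rw [Finset.mem_Ico] at hk
      refine ⟨(k - a).toNat, ?_, ?_⟩
      · rw [Finset.mem_range]; omega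
      · omega
    · intro j _
      rw [← ee_add]
      congr 1
      push_cast
      ring
  rw [h1, norm_mul, norm_ee, one_mul]
  exact norm_geom_mul_le _ _

end Pool.Agent.APP
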