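import Pool.Agent.Lib.MP_8a4e59_co.Defs

set_option autoImplicit false

/-!
Interface statements of part A (Kelley-Meka relative to Bohr sets).
-/

namespace Pool.Agent.APP

open Finset

/-- Flatness theorem (Theorem A). -/
def S_thmA : Prop := ∃ C : ℕ, 1 ≤ C ∧ ∀ (A : Finset ℤ) (N : ℝ) (Θ : Finset ℝ) (ρY α η ε₀ : ℝ) (x₀ : ℤ)
    (E : ℕ), 1 ≤ N → 0 < ρY → ρY ≤ 1 → 0 < α → α ≤ 1 → 0 < η → η ≤ 1 / (C : ℝ) → 0 < ε₀ →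
    ε₀ ≤ α ^ 4 * η / 100 → Reg ε₀ N Θ ρY →
    α * ((bohr N Θ ρY).card : ℝ) ≤ cnt A x₀ 1 (bohr N Θ ρY) →
    (∀ e : ℕ, 1 ≤ e → e ≤ E → ∀ (Θ' : Finset ℝ) (ρ' : ℝ),
      (Θ'.card : ℝ) ≤ Θ.card + (Real.log (2 / ε₀) / η) ^ C →
      ρY * Real.exp (-(((Θ.card : ℝ) + 1 + Real.log (2 / ε₀) / η) ^ C)) ≤ ρ' → ρ' ≤ ρY →
      Reg ε₀ (N / e) Θ' ρ' → ∀ x : ℤ,
      cnt A x e (bohr (N / e) Θ' ρ') ≤ (1 + η) * α * ((bohr (N / e) Θ' ρ').card : ℝ)) →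
    ∀ e : ℕ, 1 ≤ e → 2 * e ≤ E → ∀ ρt : ℝ,
      ρY * Real.exp (-(((Θ.card : ℝ) + 1 + Real.log (2 / ε₀) / η) ^ C) / 2) ≤ ρt →
      ρt ≤ kap Θ.card ε₀ * ρY / 4 →
      ∃ ρ₃ : ℝ, ρt / 2 ≤ ρ₃ ∧ ρ₃ ≤ ρt ∧ ∀ d₀ ∈ bohr N Θ (kap Θ.card ε₀ * ρY / 4),
        |∑ k ∈ bohr (N / e) (scl e Θ) ρ₃, TT A x₀ (bohr N Θ ρY) (d₀ + (e : ℤ) * k) -
            α ^ 3 * ((bohr N Θ ρY).card : ℝ) * ((bohr (N / e) (scl e Θ) ρ₃).card : ℝ)| ≤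
          C * Real.sqrt η * α ^ 3 * ((bohr N Θ ρY).card : ℝ) *
            ((bohr (N / e) (scl e Θ) ρ₃).card : ℝ)

/-- Stable stage. `J` = number of stages. -/
def S_stage : Prop := ∀ (C : ℕ), 1 ≤ C → ∀ (A : Finset ℤ) (N₁ E : ℕ) (α₀ η ε₀ : ℝ), 1 ≤ E → 0 < α₀ → α₀ ≤ 1 →
    0 < η → η ≤ 1 / 100 → 0 < ε₀ → ε₀ ≤ α₀ ^ 4 * η / 100 → A ⊆ Finset.Icc 1 (N₁ : ℤ) →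
    α₀ * N₁ ≤ A.card → 100 / ε₀ ≤ N₁ →
    ∀ (J Λ : ℕ), 2 * Real.log (4 / α₀) / η + 1 ≤ J → (Real.log (2 / ε₀) / η) ^ C + 1 ≤ Λ →
    ∃ (W : ℕ) (Θ : Finset ℝ) (ρY α : ℝ) (x₀ : ℤ), 1 ≤ W ∧ W ≤ E ^ J ∧ (Θ.card : ℝ) ≤ J * Λ ∧
      Real.exp (-((J : ℝ) * ((J * Λ : ℝ) + 1 + Λ) ^ C + J + 1)) ≤ ρY ∧ ρY ≤ 1 ∧ α₀ / 2 ≤ α ∧ α ≤ 1 ∧
      Reg ε₀ ((N₁ : ℝ) / W) Θ ρY ∧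
      α * ((bohr ((N₁ : ℝ) / W) Θ ρY).card : ℝ) ≤ cnt A x₀ W (bohr ((N₁ : ℝ) / W) Θ ρY) ∧
      (∀ e : ℕ, 1 ≤ e → e ≤ E → ∀ (Θ' : Finset ℝ) (ρ' : ℝ),
        (Θ'.card : ℝ) ≤ Θ.card + (Real.log (2 / ε₀) / η) ^ C →
        ρY * Real.exp (-(((Θ.card : ℝ) + 1 + Real.log (2 / ε₀) / η) ^ C)) ≤ ρ' → ρ' ≤ ρY →
        Reg ε₀ ((N₁ : ℝ) / (W * e : ℕ)) Θ' ρ' → ∀ x : ℤ,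
        cnt A x (W * e) (bohr ((N₁ : ℝ) / (W * e : ℕ)) Θ' ρ') ≤
          (1 + η) * α * ((bohr ((N₁ : ℝ) / (W * e : ℕ)) Θ' ρ').card : ℝ))

end Pool.Agent.APP
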