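import Pool.Agent.Lib.MP_8a4e59_co.IfaceA
import Pool.Agent.Lib.MP_8a4e59_co.IfaceB

set_option autoImplicit false

/-!
Interface statement of parts C and D, and of the final theorem.
-/

namespace Pool.Agent.APP

open Finset ArithmeticFunction

/-- `∑ c_i e(ξ_i d)` -/
noncomputable def wt {n : ℕ} (c ξ : Fin n → ℝ) (d : ℤ) : ℂ := ∑ i, (c i : ℂ) * ee (ξ i * d)

open Classical in
/-- Lower bound for the weighted count over rough numbers `n = d + 1`. -/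
def S_main : Prop := ∀ C₀ : ℝ, 0 < C₀ → ∃ c : ℕ, ∀ s : ℕ, c ≤ s → ∃ N₀ : ℕ, ∀ N : ℕ, N₀ ≤ N →
  ∀ A : Finset ℤ, A ⊆ Finset.Icc 1 (N : ℤ) → (N : ℝ) / Real.log N ^ C₀ ≤ A.card →
  ∃ (k : ℕ) (cc ξ : Fin k → ℝ) (B : Finset ℤ), (∀ i, 0 ≤ cc i) ∧ ∑ i, cc i ≤ 1 ∧
    (∀ d : ℤ, (wt cc ξ d).im = 0 ∧ 0 ≤ (wt cc ξ d).re) ∧
    (N : ℝ) ^ 2 / XX c N ≤ ∑ y ∈ B, ∑ n ∈ (Finset.Icc (1 : ℤ) (N : ℤ)).filter
        (fun n : ℤ => (XX s N)⁻¹ * (N : ℝ) ≤ (n : ℝ)),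
      (if y - (n - 1) ∈ A ∧ y ∈ A ∧ y + (n - 1) ∈ A then (wt cc ξ (n - 1)).re else 0) *
        (CQ (XX (s + 1) N) * (if rough (XX (s + 1) N) n then 1 else 0))

/-- the theorem -/
def S_final : Prop := ∀ C : ℝ, 0 < C → ∃ N₀ : ℕ, ∀ N : ℕ, N₀ ≤ N → ∀ A : Finset ℕ,
      A ⊆ Finset.Icc 1 N →
      (N : ℝ) / Real.log (N : ℝ) ^ C ≤ (A.card : ℝ) →
      ∃ x p : ℕ, p.Prime ∧ x ∈ A ∧ x + (p - 1) ∈ A ∧ x + 2 * (p - 1) ∈ A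

end Pool.Agent.APP
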