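import Pool.Agent.Lib.MP_8a4e59_co.G.Main
import Pool.Agent.Lib.MP_8a4e59_co.G.P.G1
import Pool.Agent.Lib.MP_8a4e59_co.G.P.G2
import Pool.Agent.Lib.MP_8a4e59_co.G.P.G3
import Pool.Agent.Lib.MP_8a4e59_co.G.P.G4
import Pool.Agent.Lib.MP_8a4e59_co.G.P.N1
import Pool.Agent.Lib.MP_8a4e59_co.G.P.N2
import Pool.Agent.Lib.MP_8a4e59_co.G.P.N3
import Pool.Agent.Lib.MP_8a4e59_co.G.P.N4
import Pool.Agent.Lib.MP_8a4e59_co.G.P.N5
import Pool.Agent.Lib.MP_8a4e59_co.G.P.N6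
import Pool.Agent.Lib.MP_8a4e59_co.G.P.N7
import Pool.Agent.Lib.MP_8a4e59_co.G.P.N8
import Pool.Agent.Lib.MP_8a4e59_co.G.P.N9
import Pool.Agent.Lib.MP_8a4e59_co.G.P.N10
import Pool.Agent.Lib.MP_8a4e59_co.G.P.N11
import Pool.Agent.Lib.MP_8a4e59_co.G.P.N12
import Pool.Agent.Lib.MP_8a4e59_co.F.F3
import Pool.Agent.Lib.MP_8a4e59_co.A.CloseC
import Pool.Agent.Lib.MP_8a4e59_co.B.Close
import Pool.Agent.Lib.MP_8a4e59_co.C.CloseC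
import Pool.Agent.Lib.MP_8a4e59_co.D.CloseD
import Pool.Agent.Lib.MP_8a4e59_co.P.All
import Pool.Agent.Lib.MP_8a4e59_co.P.QAll

set_option autoImplicit false

/-!
MP_8a4e59_co: the theorem.
-/

namespace Pool.Agent.APP

theorem main_closed : S_main :=
  S_main_of t_thmA t_stage t_D3 p_G1 p_G2 (p_G3 t_D2) p_G4 t_C2 t_size p_N1 p_N2 p_N3 p_N4 p_N5 p_N6 p_N7
    p_N8 p_N9 p_N10 p_N11 p_N12

theorem final : S_final :=
  S_final_of main_closed B.p_thmB Pool.Agent.MP8a4e59.P.all_P1 Q.all_Pa Q.all_Pb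

end Pool.Agent.APP
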