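import Mathlib

set_option autoImplicit false

/-!
Definitions for the solution of MP_8a4e59_co (three term progressions with difference `p - 1`).
-/

namespace Pool.Agent.APP

open Finset

/-- distance to the nearest integer -/
noncomputable def nn (x : ℝ) : ℝ := |x - round x|

/-- `e(x) = exp(2 π i x)` -/
noncomputable def ee (x : ℝ) : ℂ := Complex.exp (((2 * Real.pi * x : ℝ) : ℂ) * Complex.I)

/-- The Bohr set `B_N(Θ, ρ)` in the integers. -/
noncomputable def bohr (N : ℝ) (Θ : Finset ℝ) (ρ : ℝ) : Finset ℤ :=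
  open Classical in
  (Finset.Icc (-⌊ρ * N⌋) ⌊ρ * N⌋).filter (fun n => ∀ θ ∈ Θ, nn (θ * n) ≤ ρ)

/-- The relative size of the admissible dilations. -/
noncomputable def kap (R : ℕ) (ε : ℝ) : ℝ := ε / (100 * (R + 1))

/-- Regular Bohr sets. -/
def Reg (ε N : ℝ) (Θ : Finset ℝ) (ρ : ℝ) : Prop :=
  ((bohr N Θ (ρ * (1 + kap Θ.card ε))).card : ℝ) ≤
    (1 + ε) * ((bohr N Θ (ρ * (1 - kap Θ.card ε))).card : ℝ)

/-- `#{n ∈ S : x + e n ∈ A}` -/
noncomputable def cnt (A : Finset ℤ) (x : ℤ) (e : ℕ) (S : Finset ℤ) : ℝ :=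
  ((S.filter (fun n => x + (e : ℤ) * n ∈ A)).card : ℝ)

/-- the dilated set of frequencies `e Θ` -/
noncomputable def scl (e : ℕ) (Θ : Finset ℝ) : Finset ℝ := Θ.image (fun θ => (e : ℝ) * θ)

/-- `T(d) = #{y ∈ x₀ + B : y - d, y, y + d ∈ A}` -/
noncomputable def TT (A : Finset ℤ) (x₀ : ℤ) (B : Finset ℤ) (d : ℤ) : ℝ :=
  ((B.filter (fun y => x₀ + y - d ∈ A ∧ x₀ + y ∈ A ∧ x₀ + y + d ∈ A)).card : ℝ)

end Pool.Agent.APP
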